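import Mathlib
import Pool.Agent.H.MP_bd6a20_al.Abs

set_option autoImplicit false

namespace Pool.Agent.Results.MP_bd6a20_al.Normal

open Pool.Agent.H.MP_bd6a20_al

/-- Dyadic piecewise linear homeomorphisms of the unit interval, extended by the identity. -/
def IsPL (f : ℝ ≃o ℝ) : Prop :=
  (∀ x, x ≤ 0 ∨ 1 ≤ x → f x = x) ∧
  ∃ B : Finset ℝ, (∀ b ∈ B, ∃ (k : ℤ) (n : ℕ), b = k / 2 ^ n) ∧
    ∀ x y : ℝ, 0 ≤ x → y ≤ 1 → (∀ b ∈ B, b ∉ Set.Ioo x y) →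
      ∃ (m : ℤ) (c : ℝ), ∀ z ∈ Set.Icc x y, f z = 2 ^ m * z + c

/-- Thompson's group. -/
def F : Subgroup (ℝ ≃o ℝ) := Subgroup.closure {f | IsPL f}

/-- The Chabauty topology on the set of subgroups. -/
@[reducible] noncomputable def chabauty (Γ : Type) [Group Γ] : TopologicalSpace (Subgroup Γ) :=
  TopologicalSpace.induced (fun Δ : Subgroup Γ => (Δ : Set Γ).boolIndicator) Pi.topologicalSpace

/-- Boomerang subgroups. -/
def IsBoomerang {Γ : Type} [Group Γ] (Δ : Subgroup Γ) : Prop :=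
  ∀ γ : Γ, ∀ O ∈ @nhds _ (chabauty Γ) Δ, ∃ n : ℕ, 1 ≤ n ∧
    Δ.map (MulAut.conj (γ ^ n)).toMonoidHom ∈ O

theorem weak {Γ : Type} [Group Γ] {Δ : Subgroup Γ} (h : IsBoomerang Δ) (a : Γ) (ha : a ∈ Δ)
    (γ : Γ) : ∃ n : ℕ, 1 ≤ n ∧ γ ^ n * a * (γ ^ n)⁻¹ ∈ Δ := by
  obtain ⟨n, hn, h⟩ := h γ⁻¹ {D | a ∈ D} (by
    rw [nhds_induced]
    refine ⟨(fun f : Γ → Bool => f a) ⁻¹' {true},
      ((isOpen_discrete {true}).preimage (continuous_apply a)).mem_nhds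
      ((Set.mem_iff_boolIndicator _ _).1 ha), fun D hD => (Set.mem_iff_boolIndicator _ _).2 hD⟩)
  obtain ⟨b, hb, rfl⟩ := h
  refine ⟨n, hn, ?_⟩
  change γ ^ n * (γ⁻¹ ^ n * b * (γ⁻¹ ^ n)⁻¹) * (γ ^ n)⁻¹ ∈ Δ
  rwa [show γ ^ n * (γ⁻¹ ^ n * b * (γ⁻¹ ^ n)⁻¹) * (γ ^ n)⁻¹ = b by group]

theorem IsPL.flip {f : ℝ ≃o ℝ} (h : IsPL f) : IsPL (flip f) := by
  classical
  obtain ⟨h1, B, h2, h3⟩ := h
  refine ⟨fun x hx => ?_, B.image (1 - ·), fun b hb => ?_, fun x y hx hy hb => ?_⟩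
  · rw [flip_apply, h1 _ (hx.symm.imp (fun h => by linarith) fun h => by linarith), sub_sub_cancel]
  · obtain ⟨a, ha, rfl⟩ := Finset.mem_image.1 hb
    obtain ⟨k, n, rfl⟩ := h2 a ha
    exact ⟨2 ^ n - k, n, by push_cast; field_simp⟩
  · obtain ⟨m, c, h⟩ := h3 (1 - y) (1 - x) (by linarith) (by linarith) fun b hb' ⟨b1, b2⟩ =>
      hb _ (Finset.mem_image_of_mem _ hb') ⟨by linarith, by linarith⟩
    refine ⟨m, 1 - 2 ^ m - c, fun z ⟨z1, z2⟩ => ?_⟩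
    rw [flip_apply, h _ ⟨by linarith, by linarith⟩]
    ring

theorem flip_mem {f : ℝ ≃o ℝ} (h : f ∈ F) : flip f ∈ F :=
  (Subgroup.closure_le (F.comap flip)).2 (fun _ hf => Subgroup.subset_closure (IsPL.flip hf)) h

theorem gap (B : Finset ℝ) : ∃ b, 0 ≤ b ∧ b < 1 ∧ ∀ x ∈ B, x ∉ Set.Ioo b 1 := by
  classical
  induction B using Finset.induction_on with
  | empty => exact ⟨0, le_rfl, one_pos, by simp⟩
  | insert a B _ ih =>
    obtain ⟨b, h0, h1, h⟩ := ih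
    by_cases ha : a ∈ Set.Ioo b 1
    · refine ⟨a, h0.trans ha.1.le, ha.2, fun x hx hx' => ?_⟩
      rcases Finset.mem_insert.1 hx with rfl | hx
      · exact lt_irrefl _ hx'.1
      · exact h x hx ⟨ha.1.trans hx'.1, hx'.2⟩
    · exact ⟨b, h0, h1, by simpa [-Set.mem_Ioo] using ⟨ha, h⟩⟩

theorem germF {f : ℝ ≃o ℝ} (h : f ∈ F) : (∀ x, 1 ≤ x → f x = x) ∧ ∃ m, Germ f m := by
  induction h using Subgroup.closure_induction with
  | mem f hf =>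
    obtain ⟨h1, B, -, h3⟩ := hf
    obtain ⟨b, b0, b1, hb⟩ := gap B
    obtain ⟨m, c, h⟩ := h3 b 1 b0 le_rfl hb
    refine ⟨fun x hx => h1 x (Or.inr hx), m, b, b1, fun x x1 x2 => ?_⟩
    have := h 1 ⟨b1.le, le_rfl⟩
    rw [h1 1 (Or.inr le_rfl)] at this
    rw [h x ⟨x1, x2⟩]
    linarith
  | one => exact ⟨fun _ _ => rfl, 0, germ_one⟩
  | mul f g _ _ hf hg =>
    obtain ⟨f1, m, f2⟩ := hf
    obtain ⟨g1, n, g2⟩ := hg
    exact ⟨fun x hx => by rw [RelIso.mul_apply, g1 x hx, f1 x hx], _, f2.mul g2⟩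
  | inv f _ hf =>
    obtain ⟨f1, m, f2⟩ := hf
    exact ⟨fun x hx => f.injective (by rw [RelIso.apply_inv_self, f1 x hx]), _, f2.inv⟩

noncomputable def bump (r δ : ℝ) : ℝ ≃o ℝ :=
  StrictMono.orderIsoOfRightInverse (fun x => min x (max ((x + r) / 2) (max (x - δ) (2 * x - 1))))
    (fun _ _ h => min_lt_min h (max_lt_max (by linarith) (max_lt_max (by linarith) (by linarith))))
    (fun y => max y (min (2 * y - r) (min (y + δ) ((y + 1) / 2)))) (fun y => by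
      simp only [min_def, max_def]
      split_ifs <;> linarith)

theorem bumpF (p q : ℝ) (h0 : 0 ≤ p) (hpq : p < q) (h1 : q ≤ 1) :
    ∃ r δ, p < r ∧ r < q ∧ 0 < δ ∧ bump r δ ∈ F := by
  obtain ⟨n, hn⟩ := exists_pow_lt_of_lt_one (show 0 < (q - p) / 4 by linarith)
    (show (1 / 2 : ℝ) < 1 by norm_num)
  rw [one_div_pow] at hn
  have h2 : (0 : ℝ) < 2 ^ n := by positivity
  have hδ : (0 : ℝ) < 1 / 2 ^ n := by positivity
  have r1 : p < (⌊p * 2 ^ n⌋ + 1) / 2 ^ n := (lt_div_iff₀ h2).2 (Int.lt_floor_add_one _)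
  have r2 : (⌊p * 2 ^ n⌋ + 1) / 2 ^ n ≤ p + 1 / 2 ^ n := by
    rw [div_le_iff₀ h2, add_mul, one_div_mul_cancel h2.ne']
    linarith [Int.floor_le (p * 2 ^ n)]
  have d1 : ∃ (k : ℤ) (m : ℕ), ((⌊p * 2 ^ n⌋ + 1) / 2 ^ n : ℝ) = k / 2 ^ m :=
    ⟨⌊p * 2 ^ n⌋ + 1, n, by push_cast; rfl⟩
  have d2 : ∃ (k : ℤ) (m : ℕ), ((⌊p * 2 ^ n⌋ + 1) / 2 ^ n + 2 * (1 / 2 ^ n) : ℝ) = k / 2 ^ m :=
    ⟨⌊p * 2 ^ n⌋ + 3, n, by push_cast; ring⟩
  have d3 : ∃ (k : ℤ) (m : ℕ), (1 - 1 / 2 ^ n : ℝ) = k / 2 ^ m :=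
    ⟨2 ^ n - 1, n, by push_cast; field_simp⟩
  generalize ((⌊p * 2 ^ n⌋ + 1) / 2 ^ n : ℝ) = r at r1 r2 d1 d2
  generalize (1 / 2 ^ n : ℝ) = δ at hn hδ r2 d2 d3
  have e : ∀ x, bump r δ x = min x (max ((x + r) / 2) (max (x - δ) (2 * x - 1))) := fun _ => rfl
  refine ⟨r, δ, r1, by linarith, hδ, Subgroup.subset_closure ⟨fun x hx => ?_, {r, r + 2 * δ, 1 - δ},
    by simpa using ⟨d1, d2, d3⟩, fun x y hx hy hb => ?_⟩⟩
  · rw [e, min_eq_left]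
    exact hx.elim (fun h => le_max_of_le_left (by linarith))
      fun h => le_max_of_le_right (le_max_of_le_right (by linarith))
  · simp only [Finset.mem_insert, Finset.mem_singleton, forall_eq_or_imp, forall_eq, Set.mem_Ioo,
      not_and_or, not_lt] at hb
    obtain ⟨a1 | a1, a2, a3⟩ := hb
    · rcases a2 with a2 | a2
      · rcases a3 with a3 | a3
        · refine ⟨1, -1, fun z ⟨z1, z2⟩ => ?_⟩
          rw [e, max_eq_right (a := z - δ) (by linarith), max_eq_right (by linarith),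
            min_eq_right (by linarith)]
          ring
        · refine ⟨0, -δ, fun z ⟨z1, z2⟩ => ?_⟩
          rw [e, max_eq_left (a := z - δ) (by linarith), max_eq_right (by linarith),
            min_eq_right (by linarith)]
          ring
      · refine ⟨-1, r / 2, fun z ⟨z1, z2⟩ => ?_⟩
        rw [e, max_eq_left (max_le (by linarith) (by linarith)), min_eq_right (by linarith)]
        ring
    · refine ⟨0, 0, fun z ⟨z1, z2⟩ => ?_⟩
      rw [e, min_eq_left (le_max_of_le_left (by linarith))]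
      ring

theorem result (Δ : Subgroup F) (h : IsBoomerang Δ) : Δ.Normal := by
  by_cases hb : Δ = ⊥
  · exact hb ▸ inferInstance
  refine normal (ρ := F.subtype) Subtype.val_injective ⟨fun g => (germF g.2).1,
    fun g => (germF g.2).2, fun p q h0 h1 h2 => ?_⟩ ⟨fun g => (germF (flip_mem g.2)).1,
    fun g => (germF (flip_mem g.2)).2, fun p q h0 h1 h2 => ?_⟩ (weak h) hb
  · obtain ⟨r, δ, r1, r2, r3, h⟩ := bumpF p q h0 h1 h2
    exact ⟨⟨_, h⟩, r, δ, r1, r2, r3, fun _ => rfl⟩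
  · obtain ⟨r, δ, r1, r2, r3, h⟩ := bumpF p q h0 h1 h2
    refine ⟨⟨_, flip_mem h⟩, r, δ, r1, r2, r3, fun x => ?_⟩
    simp only [MonoidHom.comp_apply, Subgroup.subtype_apply, flip_apply, sub_sub_cancel]
    rfl

end Pool.Agent.Results.MP_bd6a20_al.Normal
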